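import Pool.Agent.H45.Pam

open Set Filter Topology MeasureTheory ProbabilityTheory Pool.Agent.H45.Pam

namespace Pool.Agent.Results.MP_360c0a_pr.Eventually

/-- `u` solves the parabolic Anderson model with potential `ξ` and initial datum `u₀`, and is
bounded on every strip `[0, T] × ℤ` -/
def IsSol (ξ : ℤ → ℝ) (u₀ : ℤ → ℕ) (u : ℝ → ℤ → ℝ) : Prop :=
  (∀ y, u 0 y = u₀ y) ∧ (∀ t ≥ 0, ∀ y, HasDerivWithinAt (fun s => u s y)
    ((u t (y + 1) + u t (y - 1) - 2 * u t y) / 2 + ξ y * u t y) (Ici 0) t) ∧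
  ∀ T, ∃ B, ∀ t ∈ Icc 0 T, ∀ y, |u t y| ≤ B

variable {ξ : ℤ → ℝ} {m M C : ℝ} {u₀ : ℤ → ℕ} (hm : 0 < m) (h : ∀ y, m ≤ ξ y ∧ ξ y ≤ M)
include hm h

lemma unique {u v : ℝ → ℤ → ℝ} (hu : IsSol ξ u₀ u) (hv : IsSol ξ u₀ v) {T : ℝ} (hT : 0 ≤ T) :
    u T = v T := by
  obtain ⟨B, hB⟩ := hu.2.2 T
  obtain ⟨B', hB'⟩ := hv.2.2 T
  have key : ∀ n : ℕ, ∀ y, ∀ t ∈ Icc 0 T,
      ‖u t y - v t y‖ ≤ (B + B') * (2 + M) ^ n * (t ^ n / n.factorial) := by
    intro n
    induction n with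
    | zero => exact fun y t ht => by simpa using (abs_sub _ _).trans (add_le_add (hB t ht y) (hB' t ht y))
    | succ n ih =>
      intro y
      have d := fun t ht => (hu.2.1 t ht y).sub (hv.2.1 t ht y)
      refine image_norm_le_of_norm_deriv_right_le_deriv_boundary
        (B' := fun t => (B + B') * (2 + M) ^ (n + 1) * (t ^ n / n.factorial))
        (fun t ht => (d t ht.1).continuousWithinAt.mono Icc_subset_Ici_self)
        (fun t ht => (d t ht.1).mono (Ici_subset_Ici.2 ht.1)) (by simp [hu.1, hv.1]) (fun t => ?_)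
        fun t ht => ?_
      · refine (((hasDerivAt_pow (n + 1) t).div_const _).const_mul _).congr_deriv ?_
        rw [Nat.factorial_succ]; push_cast; field_simp
      · have ht' := Ico_subset_Icc_self ht
        have a1 := abs_le.1 (ih (y + 1) t ht')
        have a2 := abs_le.1 (ih (y - 1) t ht')
        have a3 := abs_le.1 (ih y t ht')
        have := h y
        rw [Real.norm_eq_abs, abs_le, pow_succ]
        constructor <;> nlinarith
  funext y
  have := ((Real.summable_pow_div_factorial ((2 + M) * T)).tendsto_atTop_zero).const_mul (B + B')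
  rw [mul_zero] at this
  refine sub_eq_zero.1 (norm_le_zero_iff.1 (ge_of_tendsto' this fun n => ?_))
  refine (key n y T ⟨hT, le_rfl⟩).trans_eq ?_
  rw [mul_pow]; ring

variable (hu : ∀ y, (u₀ y : ℝ) ≤ C)
include hu

lemma bd (y : ℤ) (k : ℕ) : |(A ξ)^[k] (fun y => u₀ y) y| ≤ C * (1 + M) ^ k := by
  rw [abs_of_nonneg (A_nonneg hm h (fun y => Nat.cast_nonneg _) k y)]
  exact A_le hm h ((Nat.cast_nonneg _).trans (hu 0)) hu k y

lemma der (y : ℤ) (t : ℝ) :
    HasDerivAt (fun t => Real.exp (-t) * S (fun k => (A ξ)^[k] (fun y => u₀ y) y) t)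
      (Real.exp (-t) * (S (fun k => (A ξ)^[k + 1] (fun y => u₀ y) y) t -
        S (fun k => (A ξ)^[k] (fun y => u₀ y) y) t)) t := by
  refine ((hasDerivAt_neg t).exp.mul (S_deriv (by linarith [h 0]) (bd hm h hu y) t)).congr_deriv ?_
  ring

lemma sol : IsSol ξ u₀ fun t y => Real.exp (-t) * S (fun k => (A ξ)^[k] (fun y => u₀ y) y) t := by
  refine ⟨fun y => ?_, fun t _ y => ((der hm h hu y t).congr_deriv ?_).hasDerivWithinAt,
    fun T => ⟨C * Real.exp ((1 + M) * T), fun t ht y => ?_⟩⟩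
  · simp only [S]
    rw [tsum_eq_single 0 fun k hk => by simp [hk]]; simp
  · have s := fun y => (summ (bd hm h hu y) t).hasSum
    have := (((s (y + 1)).add (s (y - 1))).div_const 2).add ((s y).mul_left (ξ y))
    rw [show S (fun k => (A ξ)^[k + 1] (fun y => u₀ y) y) t = _ from (tsum_congr fun k => by
      simp only [Function.iterate_succ_apply', A]; ring).trans this.tsum_eq]
    simp only [S]; ring
  · have hM : 0 ≤ 1 + M := by linarith [h 0]
    have hC : 0 ≤ C := (Nat.cast_nonneg _).trans (hu 0)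
    have h0 := ht.1
    have h1 : |S (fun k => (A ξ)^[k] (fun y => u₀ y) y) t| ≤ C * Real.exp ((1 + M) * t) := by
      rw [← S_exp, ← Real.norm_eq_abs, S, S]
      refine tsum_of_norm_bounded (summ (C := C) (l := 1 + M)
        (fun k => (abs_of_nonneg (by positivity)).le) t).hasSum fun k => ?_
      rw [Real.norm_eq_abs, abs_mul, abs_of_nonneg (a := t ^ k / _) (by positivity)]
      gcongr; exact bd hm h hu y k
    rw [abs_mul, abs_of_pos (Real.exp_pos _)]
    refine (mul_le_of_le_one_left (abs_nonneg _) (Real.exp_le_one_iff.2 (by linarith))).trans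
      (h1.trans ?_)
    gcongr; exact ht.2

omit hm h hu in
lemma stretch {Ω : Type} [MeasurableSpace Ω] {P : Measure Ω} {ξ : ℤ → Ω → ℝ}
    (hm : ∀ y, Measurable (ξ y)) (hi : iIndepFun ξ P) (hd : ∀ y, IdentDistrib (ξ y) (ξ 0) P P)
    {a : ℝ} (ha : P (ξ 0 ⁻¹' Ioi a) ≠ 0) (L : ℕ) :
    ∀ᵐ ω ∂P, ∃ b : ℤ, ∀ j : ℕ, j < L → a < ξ (b + j) ω := by
  have := hi.isProbabilityMeasure
  let s : ℕ → Set Ω := fun n => ⋂ j : Fin L, ξ ((n * L + j : ℕ) : ℤ) ⁻¹' Ioi a
  have ms : ∀ n, MeasurableSet (s n) := fun n => .iInter fun j => hm _ measurableSet_Ioi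
  have hf : Function.Injective fun p : ℕ × Fin L => ((p.1 * L + p.2 : ℕ) : ℤ) := by
    rintro ⟨n, j⟩ ⟨n', j'⟩ H
    have H : n * L + j = n' * L + j' := Nat.cast_injective (R := ℤ) H
    have h1 := congrArg (· % L) H
    simp only [Nat.mul_add_mod_of_lt j.2, Nat.mul_add_mod_of_lt j'.2] at h1
    exact Prod.ext (Nat.eq_of_mul_eq_mul_right j.pos (show n * L = n' * L by omega)) (Fin.ext h1)
  have key : ∀ F : Finset ℕ, P (⋂ n ∈ F, s n) = (P (ξ 0 ⁻¹' Ioi a) ^ L) ^ F.card := fun F => by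
    have := (hi.precomp hf).measure_inter_preimage_eq_mul (F ×ˢ Finset.univ)
      (sets := fun _ => Ioi a) fun _ _ => measurableSet_Ioi
    simp only [(hd _).measure_preimage_eq measurableSet_Ioi, Finset.prod_const, Finset.card_product,
      Finset.card_univ, Fintype.card_fin] at this
    rw [← pow_mul, mul_comm, ← this]
    congr 1; ext ω; simp only [s, mem_iInter, Finset.mem_product, Finset.mem_univ, and_true, Prod.forall]
    exact ⟨fun H n j h => H n h j, fun H n h j => H n j h⟩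
  have k1 : ∀ n, P (s n) = P (ξ 0 ⁻¹' Ioi a) ^ L := fun n => by simpa using key {n}
  have := measure_limsup_eq_one (μ := P) ms ((iIndepSet_iff_meas_biInter ms).2 fun F => by
    simp only [key, k1, Finset.prod_const])
    (by simp only [k1]; exact ENNReal.tsum_const_eq_top_of_ne_zero (pow_ne_zero _ ha))
  filter_upwards [(mem_ae_iff_prob_eq_one (MeasurableSet.measurableSet_limsup ms)).2 this] with ω hω
  obtain ⟨n, hn⟩ := (mem_limsup_iff_frequently_mem.1 hω).exists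
  exact ⟨n * L, fun j hj => by simpa using mem_iInter.1 hn ⟨j, hj⟩⟩

omit hm h hu in
theorem result {Ω : Type} [MeasurableSpace Ω] (P : Measure Ω) (ξ : ℤ → Ω → ℝ)
    (hm : ∀ y, Measurable (ξ y)) (hi : iIndepFun ξ P) (hd : ∀ y, IdentDistrib (ξ y) (ξ 0) P P)
    (h0 : 0 < essInf (fun ω => (ξ 0 ω : EReal)) P) (h1 : essSup (fun ω => (ξ 0 ω : EReal)) P < ⊤)
    (u₀ : ℤ → ℕ) (C : ℝ) (hC : ∀ y, (u₀ y : ℝ) ≤ if y ≤ 0 then C else 0) (hu : 1 ≤ u₀ 0) :
    ∀ᵐ ω ∂P, (∃ u, IsSol (ξ · ω) u₀ u) ∧ ∀ u, IsSol (ξ · ω) u₀ u →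
      ∀ x, ∃ T ≥ 0, StrictMonoOn (u · x) (Ici T) := by
  have := hi.isProbabilityMeasure
  obtain ⟨m, hm0, hm1⟩ := EReal.lt_iff_exists_real_btwn.1 h0
  have hm0 : 0 < m := by exact_mod_cast hm0
  have l1 : ∀ᵐ ω ∂P, m ≤ ξ 0 ω := (ae_essInf_le (f := fun ω => (ξ 0 ω : EReal))).mono fun ω h => by
    exact_mod_cast hm1.le.trans h
  have l2 := ae_le_essSup (f := fun ω => (ξ 0 ω : EReal)) (μ := P)
  obtain ⟨ω₀, h2, h3⟩ := (l1.and l2).exists
  obtain ⟨M, hM⟩ : ∃ M : ℝ, essSup (fun ω => (ξ 0 ω : EReal)) P = M :=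
    ⟨_, (EReal.coe_toReal h1.ne (ne_bot_of_gt ((EReal.bot_lt_coe _).trans_le h3))).symm⟩
  rw [hM] at l2 h3
  have hmM : m ≤ M := h2.trans (by exact_mod_cast h3)
  obtain ⟨ρ', r2, r1, G⟩ := grow (C := C) (l := 1 + M) (by linarith)
  obtain ⟨a, a1, a2⟩ := exists_between (show ρ' - 1 < M by linarith)
  obtain ⟨L, hL⟩ := exists_nat_ge (1 / (1 + a - ρ'))
  rw [div_le_iff₀ (by linarith)] at hL
  have ha : P (ξ 0 ⁻¹' Ioi a) ≠ 0 := fun H => by
    have : essSup (fun ω => (ξ 0 ω : EReal)) P ≤ a := essSup_le_of_ae_le _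
      ((measure_eq_zero_iff_ae_notMem.1 H).mono fun ω h => by simpa using h)
    rw [hM] at this
    exact absurd (by exact_mod_cast this) a2.not_ge
  have l3 : ∀ᵐ ω ∂P, ∀ y, ξ y ω ∈ Icc m M := ae_all_iff.2 fun y => (hd y).symm.ae_mem_snd
    measurableSet_Icc ((l1.and l2).mono fun ω h => ⟨h.1, by exact_mod_cast h.2⟩)
  have hC0 : 0 ≤ C := by simpa using (Nat.cast_nonneg _).trans (hC 0)
  have hC' : ∀ y, (u₀ y : ℝ) ≤ C := fun y => (hC y).trans (by split_ifs <;> simp [hC0])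
  filter_upwards [l3, stretch hm hi hd ha L] with ω h ⟨b, hb⟩
  refine ⟨⟨_, sol hm0 h hC'⟩, fun u hs x => ?_⟩
  have n0 : (0 : ℤ → ℝ) ≤ fun y => (u₀ y : ℝ) := fun y => Nat.cast_nonneg _
  obtain ⟨T, hT⟩ := eventually_atTop.1 (G _ (fun k => A_nonneg hm0 h n0 k x)
    (fun k => A_le hm0 h hC0 hC' k x) (A_low hm0 h n0 (by exact_mod_cast hu) r1.le
      (Nat.pos_of_ne_zero fun H => by simp [H] at hL; linarith) hL hb x))
  refine ⟨max T 0, le_max_right _ _, StrictMonoOn.congr (strictMonoOn_of_deriv_pos (convex_Ici _)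
    (fun t _ => (der hm0 h hC' x t).continuousAt.continuousWithinAt) fun t ht => ?_) fun t ht =>
      congrFun (unique hm0 h (sol hm0 h hC') hs ((le_max_right _ _).trans ht)) x⟩
  rw [(der hm0 h hC' x t).deriv]
  exact mul_pos (Real.exp_pos _) (sub_pos.2 (hT t ((le_max_left _ _).trans (interior_subset ht))))

end Pool.Agent.Results.MP_360c0a_pr.Eventually
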